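import Pool.Agent.helper26.IM.SpecA

/-! Module im:OVS (helper33) -/

set_option autoImplicit false

open Finset

namespace Pool.Agent.helper26.IM

open Pool.Agent.RRank Pool.Agent.helper35.MR

theorem OVS_int {K E : Type} [Field K] [Field E] [Algebra (Polynomial K) E] {n D : ℕ} {e : E}
    (h : Bdd (K := K) n D e) : IsIntegral (Polynomial K) e := by
  obtain ⟨P, hPm, _, _, hP⟩ := h
  exact ⟨P, hPm, by simpa [Polynomial.aeval_def] using hP⟩

theorem OVS (hOVN : OVN_stmt) (hOVD : OVD_stmt) : OVS_stmt := by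
  intro K _ _ E _ _ _ _ _ _ _ _ J _ e D he
  obtain ⟨Bad, hBad⟩ := hOVD K E J e (fun j => by
    obtain ⟨n, hn⟩ := he j
    exact OVS_int hn)
  refine ⟨Bad, fun C hC hD a ha hspan h0 => ?_⟩
  by_contra hcon
  push Not at hcon
  obtain ⟨p, hp1, hp2⟩ := hOVN K E J e D he a hspan
  have hdvd := hBad C hC a ha (fun h hh => hcon h hh) p hp1
  have hfr : 0 < Module.finrank (RatFunc K) E := Module.finrank_pos
  have hdeg : ((∏ c ∈ C, (Polynomial.X - Polynomial.C c)) ^ Module.finrank (RatFunc K) E).natDegree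
      = Module.finrank (RatFunc K) E * C.card := by
    rw [Polynomial.natDegree_pow, Polynomial.natDegree_prod_of_monic _ _
      (fun c _ => Polynomial.monic_X_sub_C c)]
    simp
  have hp0 : p = 0 := by
    by_contra hne
    have h1 := Polynomial.natDegree_le_of_dvd hdvd hne
    rw [hdeg] at h1
    have h2 : Module.finrank (RatFunc K) E * C.card ≤ Module.finrank (RatFunc K) E * D :=
      le_trans h1 hp2
    have h3 := Nat.le_of_mul_le_mul_left h2 hfr
    omega
  rw [hp0, map_zero] at hp1
  exact h0 (Algebra.norm_eq_zero_iff.mp hp1)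

end Pool.Agent.helper26.IM
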