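import Pool.Agent.helper26.IM.SpecA

/-! Module im:ROW (helper33) -/

set_option autoImplicit false

open Finset

namespace Pool.Agent.helper26.IM

open Pool.Agent.RRank Pool.Agent.helper35.MR

/-- an algebra homomorphism of a subalgebra as a ring homomorphism of the underlying subring -/
def ROW_hom {K L : Type} [Field K] [Field L] [Algebra K L] (A : Subalgebra K L) (h : A →ₐ[K] K) :
    A.toSubring →+* K where
  toFun a := h ⟨a.1, a.2⟩
  map_one' := map_one h
  map_zero' := map_zero h
  map_mul' a b := map_mul h ⟨a.1, a.2⟩ ⟨b.1, b.2⟩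
  map_add' a b := map_add h ⟨a.1, a.2⟩ ⟨b.1, b.2⟩

theorem ROW_main (hNFS : NFS_stmt) (hLOS : LOS_stmt) (hNFC : NFC_stmt) {K : Type} [Field K] [IsAlgClosed K]
    {X Y Z : Type} (T : X → Y → Z → K)
    (𝓊 : Ultrafilter X) (A : Subalgebra K (UF 𝓊 fun _ : X => K))
    (hA : ∀ y z, UF.mk 𝓊 (fun x => T x y z) ∈ A) (l : ℕ) (h : Fin l → (A →ₐ[K] K)) (y : Fin l → Y)
    (z : Fin l → Z) (hfull : Full3 (fun i j k => h i ⟨_, hA (y j) (z k)⟩)) (s : Finset (Fin l)) :
    ∃ x : Fin l → X, Full3 (fun i j k => if i ∈ s then T (x i) (y j) (z k) else h i ⟨_, hA (y j) (z k)⟩) := by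
  classical
  induction s using Finset.induction_on with
  | empty =>
    have hne : Nonempty X := 𝓊.neBot.nonempty
    refine ⟨fun _ => Classical.choice hne, ?_⟩
    simpa using hfull
  | insert t s hts ih =>
    obtain ⟨x, hx⟩ := ih
    let M : X → Fin l → Fin l → Fin l → K := fun ω i j k =>
      if i = t then T ω (y j) (z k) else if i ∈ s then T (x i) (y j) (z k) else h i ⟨_, hA (y j) (z k)⟩
    have hkey : ¬ ∀ᶠ ω in (𝓊 : Filter X), NF (M ω) := by
      intro hcon
      have h1 := hLOS X 𝓊 (fun _ => K) (Fin l) M hcon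
      let M' : Fin l → Fin l → Fin l → A.toSubring := fun i j k =>
        if i = t then ⟨_, hA (y j) (z k)⟩ else
          ⟨algebraMap K (UF 𝓊 fun _ : X => K)
            (if i ∈ s then T (x i) (y j) (z k) else h i ⟨_, hA (y j) (z k)⟩), A.algebraMap_mem _⟩
      have h2 : (fun i j k => ((M' i j k : A.toSubring) : UF 𝓊 fun _ : X => K)) =
          fun i j k => UF.mk 𝓊 (fun ω => M ω i j k) := by
        funext i j k
        by_cases hi : i = t
        · simp only [M', M, if_pos hi]
        · simp only [M', M, if_neg hi]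
          rfl
      rw [← h2] at h1
      have h3 := hNFS _ K A.toSubring (ROW_hom A (h t)) (Fin l) M' h1
      rw [hNFC] at h3
      apply h3
      have h4 : (fun i j k => (ROW_hom A (h t)) (M' i j k)) =
          fun i j k => if i ∈ s then T (x i) (y j) (z k) else h i ⟨_, hA (y j) (z k)⟩ := by
        funext i j k
        by_cases hi : i = t
        · subst hi
          simp only [M', if_neg hts, if_true]
          rfl
        · simp only [M', if_neg hi]
          exact (h t).commutes _
      rw [h4]
      exact hx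
    rw [← Ultrafilter.eventually_not] at hkey
    obtain ⟨ω, hω⟩ := hkey.exists
    rw [hNFC, not_not] at hω
    refine ⟨Function.update x t ω, ?_⟩
    have h5 : (fun i j k => if i ∈ insert t s then T (Function.update x t ω i) (y j) (z k)
        else h i ⟨_, hA (y j) (z k)⟩) = M ω := by
      funext i j k
      by_cases hi : i = t
      · subst hi
        simp [M]
      · simp only [M, if_neg hi, Finset.mem_insert, hi, false_or]
        rw [Function.update_of_ne hi]
    rw [h5]
    exact hω

theorem ROW (hNFS : NFS_stmt) (hLOS : LOS_stmt) (hNFC : NFC_stmt) : ROW_stmt := by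
  intro K _ _ X Y Z T 𝓊 A hA l ⟨h, y, z, hfull⟩
  obtain ⟨x, hx⟩ := ROW_main hNFS hLOS hNFC T 𝓊 A hA l h y z hfull Finset.univ
  refine ⟨x, y, z, ?_⟩
  simpa using hx

end Pool.Agent.helper26.IM
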