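import Pool.Agent.helper26.IM.SpecA

/-! Module im:SPR (helper33) -/

set_option autoImplicit false

open Finset

namespace Pool.Agent.helper26.IM

open Pool.Agent.RRank Pool.Agent.helper35.MR

/-- a homomorphism maps roots to roots of the specialised polynomial -/
theorem SPR_root {K F : Type} [Field K] [Field F] [Algebra K F] {d : ℕ} (lam : Fin d → F)
    (A : Subalgebra K F) (hlam : ∀ i, lam i ∈ A) (h : A →ₐ[K] K) (x : F) (hx : x ∈ A)
    (P : Polynomial (MvPolynomial (Fin d) K))
    (hP : Polynomial.eval₂ (MvPolynomial.aeval lam : MvPolynomial (Fin d) K →ₐ[K] F).toRingHom x P = 0) :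
    Polynomial.eval (h ⟨x, hx⟩)
      (P.map (MvPolynomial.aeval (fun i => h ⟨lam i, hlam i⟩) :
        MvPolynomial (Fin d) K →ₐ[K] K).toRingHom) = 0 := by
  have h1 : (A.val.toRingHom.comp (MvPolynomial.aeval (fun i => (⟨lam i, hlam i⟩ : A)) :
      MvPolynomial (Fin d) K →ₐ[K] A).toRingHom) =
      (MvPolynomial.aeval lam : MvPolynomial (Fin d) K →ₐ[K] F).toRingHom := by
    have : A.val.comp (MvPolynomial.aeval (fun i => (⟨lam i, hlam i⟩ : A)) :
      MvPolynomial (Fin d) K →ₐ[K] A) = MvPolynomial.aeval lam := by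
      apply MvPolynomial.algHom_ext
      intro i
      simp
    rw [← this]
    rfl
  have h2 : (h.toRingHom.comp (MvPolynomial.aeval (fun i => (⟨lam i, hlam i⟩ : A)) :
      MvPolynomial (Fin d) K →ₐ[K] A).toRingHom) =
      (MvPolynomial.aeval (fun i => h ⟨lam i, hlam i⟩) :
        MvPolynomial (Fin d) K →ₐ[K] K).toRingHom := by
    have : h.comp (MvPolynomial.aeval (fun i => (⟨lam i, hlam i⟩ : A)) :
      MvPolynomial (Fin d) K →ₐ[K] A) = MvPolynomial.aeval (fun i => h ⟨lam i, hlam i⟩) := by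
      apply MvPolynomial.algHom_ext
      intro i
      simp
    rw [← this]
    rfl
  have h3 : Polynomial.eval₂ (MvPolynomial.aeval (fun i => (⟨lam i, hlam i⟩ : A)) :
      MvPolynomial (Fin d) K →ₐ[K] A).toRingHom (⟨x, hx⟩ : A) P = 0 := by
    have h4 := Polynomial.hom_eval₂ P (MvPolynomial.aeval (fun i => (⟨lam i, hlam i⟩ : A)) :
      MvPolynomial (Fin d) K →ₐ[K] A).toRingHom A.val.toRingHom (⟨x, hx⟩ : A)
    rw [h1] at h4
    have h5 : A.val.toRingHom (⟨x, hx⟩ : A) = x := rfl
    rw [h5, hP] at h4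
    exact Subtype.ext h4
  have h6 := Polynomial.hom_eval₂ P (MvPolynomial.aeval (fun i => (⟨lam i, hlam i⟩ : A)) :
      MvPolynomial (Fin d) K →ₐ[K] A).toRingHom h.toRingHom (⟨x, hx⟩ : A)
  rw [h3, h2, map_zero] at h6
  rw [Polynomial.eval_map]
  exact h6.symm

theorem SPR_eqn {K F : Type} [Field K] [Field F] [Algebra K F] {t : ℕ} (N : ℕ) (α : Fin t → F) (i : Fin t) :
    ∃ c : Fin (N + 1) → F, (∀ i, c i ∈ Submodule.span K (Set.range α)) ∧
      α i ^ (N + 1) + ∑ k, c k * α i ^ (k : ℕ) = 0 := by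
  refine ⟨fun k => if k = Fin.last N then - α i else 0, fun k => ?_, ?_⟩
  · dsimp only
    split_ifs
    · exact Submodule.neg_mem _ (Submodule.subset_span ⟨i, rfl⟩)
    · exact Submodule.zero_mem _
  · rw [Finset.sum_eq_single (Fin.last N)]
    · simp only [if_true, Fin.val_last]
      ring
    · intro b _ hb
      dsimp only
      rw [if_neg hb, zero_mul]
    · intro hb
      exact absurd (Finset.mem_univ _) hb

theorem SPR (hUNB : UNB_stmt) (hSPD : SPD_stmt) : SPR_stmt := by
  classical
  intro K _ _ F _ _ t N α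
  rcases N with _ | N
  · refine ⟨0, fun J _ e he => ⟨∅, ⊤, by simp, fun i => Algebra.mem_top, fun j => Algebra.mem_top, ?_⟩⟩
    intro a ha h1 h2
    exfalso
    apply h2
    have : IsEmpty J := ⟨fun j => by
      obtain ⟨c, _, hc⟩ := he j
      simp at hc⟩
    rw [Set.range_eq_empty, Submodule.span_empty, Submodule.mem_bot] at h1
    exact h1
  · obtain ⟨d, lam, hlam, hlamA, n, D, hnD⟩ := hUNB K F t (N + 1) α
    refine ⟨(n * D + 1) ^ d * n ^ t, fun J _ e he => ?_⟩
    have hall : ∀ j : J ⊕ Fin t, ∃ P : Polynomial (MvPolynomial (Fin d) K), P.Monic ∧ P.natDegree = n ∧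
      (∀ i k, (P.coeff i).degreeOf k ≤ D) ∧
      Polynomial.eval₂ (MvPolynomial.aeval lam : MvPolynomial (Fin d) K →ₐ[K] F).toRingHom
        (Sum.elim e α j) P = 0 := by
      intro j
      rcases j with j | i
      · exact hnD (e j) (he j)
      · exact hnD (α i) (SPR_eqn N α i)
    have hinf : (Set.univ : Set K).Infinite := Set.infinite_univ
    obtain ⟨C, hC, hsep⟩ := hSPD d K F lam hlam (J ⊕ Fin t) (Sum.elim e α) n D hall Set.univ hinf
    choose P hPm hPd hPD hP0 using fun i : Fin t => hall (Sum.inr i)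
    let R : (Fin d → K) → Fin t → Finset K := fun v i =>
      ((P i).map (MvPolynomial.aeval v : MvPolynomial (Fin d) K →ₐ[K] K).toRingHom).roots.toFinset
    have hR : ∀ v i, (R v i).card ≤ n := by
      intro v i
      refine le_trans (Multiset.toFinset_card_le _) (le_trans (Polynomial.card_roots' _) ?_)
      rw [← hPd i]
      exact Polynomial.natDegree_map_le
    refine ⟨(Fintype.piFinset C).biUnion (fun v => Fintype.piFinset (R v)),
      Algebra.adjoin K (Set.range lam ∪ Set.range (Sum.elim e α)), ?_, ?_, ?_, ?_⟩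
    · refine le_trans Finset.card_biUnion_le ?_
      refine le_trans (Finset.sum_le_card_nsmul _ _ (n ^ t) ?_) ?_
      · intro v _
        rw [Fintype.card_piFinset]
        refine le_trans (Finset.prod_le_prod' fun i _ => hR v i) ?_
        simp
      · rw [Fintype.card_piFinset, Finset.prod_congr rfl (fun i _ => (hC i).2)]
        simp
    · intro i
      exact Algebra.subset_adjoin (Or.inr ⟨Sum.inr i, rfl⟩)
    · intro j
      exact Algebra.subset_adjoin (Or.inr ⟨Sum.inl j, rfl⟩)
    · intro a ha hspan h0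
      obtain ⟨h, hh, hha⟩ := hsep a ha (Submodule.span_mono (by
        rintro _ ⟨j, rfl⟩
        exact ⟨Sum.inl j, rfl⟩) hspan) h0
      have hlam' : ∀ i, lam i ∈ Algebra.adjoin K (Set.range lam ∪ Set.range (Sum.elim e α)) :=
        fun i => Algebra.subset_adjoin (Or.inl ⟨i, rfl⟩)
      have hal : ∀ i, α i ∈ Algebra.adjoin K (Set.range lam ∪ Set.range (Sum.elim e α)) :=
        fun i => Algebra.subset_adjoin (Or.inr ⟨Sum.inr i, rfl⟩)
      refine ⟨h, ⟨fun i => h ⟨α i, hal i⟩, ?_, fun i hi => rfl⟩, hha⟩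
      rw [Finset.mem_biUnion]
      refine ⟨fun i => h ⟨lam i, hlam' i⟩, ?_, ?_⟩
      · rw [Fintype.mem_piFinset]
        exact hh
      · rw [Fintype.mem_piFinset]
        intro i
        rw [Multiset.mem_toFinset, Polynomial.mem_roots]
        · exact SPR_root lam _ hlam' h (α i) (hal i) (P i) (hP0 i)
        · exact ((hPm i).map _).ne_zero

end Pool.Agent.helper26.IM
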